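import Pool.Agent.H748R3.HUR.Stmts

set_option autoImplicit false

namespace Pool.Agent.H651R4.HUR

open Pool.Agent.H748R3.HUR

/-- recursion along a well-order with an invariant -/
theorem taskRec : TaskRec := by
  intro ι T _ _ _ Q hloc hex
  classical
  let wf : WellFounded ((· < ·) : ι → ι → Prop) := wellFounded_lt
  let ext : (a : ι) → ((b : ι) → b < a → T) → (ι → T) := fun a G b =>
    if h : b < a then G b h else Classical.arbitrary T
  let Φ : (a : ι) → ((b : ι) → b < a → T) → T := fun a G =>
    if h : ∃ d, Q a (ext a G) d then h.choose else Classical.arbitrary T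
  let F : ι → T := wf.fix Φ
  have hF : ∀ a, F a = Φ a (fun b _ => F b) := fun a => wf.fix_eq Φ a
  refine ⟨F, fun a => ?_⟩
  induction a using wf.induction with
  | _ a ih =>
    obtain ⟨d, hd⟩ := hex a F ih
    have hag : ∀ b < a, F b = ext a (fun b _ => F b) b := by
      intro b hb
      simp only [ext, hb, dite_true]
    have hd' : ∃ d, Q a (ext a (fun b _ => F b)) d := ⟨d, hloc a F _ d hag hd⟩
    have h1 : F a = hd'.choose := by
      rw [hF a]
      simp only [Φ, dif_pos hd']
    have h2 := hd'.choose_spec
    rw [← h1] at h2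
    exact hloc a _ F _ (fun b hb => (hag b hb).symm) h2

end Pool.Agent.H651R4.HUR
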